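import Mathlib

open Set Filter Topology

namespace Pool.Agent.Results.MP_8267fa_gt.NotRegular

/-- preimages of open sets of `Z` under continuous maps `Y → Z` -/
def OZ (Y Z : Type) [TopologicalSpace Y] [TopologicalSpace Z] : Set (Set Y) :=
  {W | ∃ (f : C(Y, Z)) (U : Set Z), IsOpen U ∧ W = f ⁻¹' U}

/-- members of the `Z`-Scott topology on the open sets of `Y` -/
def ZScott (Y Z : Type) [TopologicalSpace Y] [TopologicalSpace Z] (H : Set (Set Y)) : Prop :=
  (∀ W ∈ H, IsOpen W) ∧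
  (∀ W ∈ H, W ∈ OZ Y Z → ∀ V : Set Y, IsOpen V → W ⊆ V → V ∈ H) ∧
  ∀ 𝒞 ⊆ OZ Y Z, ⋃₀ 𝒞 ∈ H → ∃ 𝒟 ⊆ 𝒞, 𝒟.Finite ∧ ⋃₀ 𝒟 ∈ H

/-- the function space topology -/
@[reducible] def tOne (Y Z : Type) [TopologicalSpace Y] [TopologicalSpace Z] :
    TopologicalSpace C(Y, Z) :=
  TopologicalSpace.generateFrom
    {S | ∃ (H : Set (Set Y)) (U : Set Z), ZScott Y Z H ∧ IsOpen U ∧ S = {f : C(Y, Z) | f ⁻¹' U ∈ H}}

/-- the Arens-Fort space -/
inductive Y : Type
  | inf | pt (n m : ℕ)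

instance : TopologicalSpace Y where
  IsOpen U := Y.inf ∈ U → ∀ᶠ n in atTop, ∀ᶠ m in atTop, Y.pt n m ∈ U
  isOpen_univ _ := Eventually.of_forall fun _ => Eventually.of_forall fun _ => trivial
  isOpen_inter s t hs ht h := by
    filter_upwards [hs h.1, ht h.2] with n h1 h2
    exact h1.and h2
  isOpen_sUnion s hs := by
    rintro ⟨t, ht, h⟩
    filter_upwards [hs t ht h] with n h1
    filter_upwards [h1] with m h2
    exact ⟨t, ht, h2⟩

lemma isOpen_iff (U : Set Y) :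
    IsOpen U ↔ (Y.inf ∈ U → ∀ᶠ n in atTop, ∀ᶠ m in atTop, Y.pt n m ∈ U) := Iff.rfl

lemma clopen_of {U : Set Y} (h : Y.inf ∈ U) (h' : ∀ᶠ n in atTop, ∀ᶠ m in atTop, Y.pt n m ∈ U) :
    IsClopen U :=
  ⟨⟨(isOpen_iff _).2 fun h1 => (h1 h).elim⟩, (isOpen_iff _).2 fun _ => h'⟩

lemma mem_OZ {U : Set Y} (h : IsClopen U) : U ∈ OZ Y Bool :=
  ⟨⟨U.boolIndicator, (continuous_boolIndicator_iff_isClopen U).2 h⟩, {true}, isOpen_discrete _,
    (preimage_boolIndicator_true U).symm⟩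

lemma OZ_clopen {U : Set Y} (h : U ∈ OZ Y Bool) : IsClopen U := by
  obtain ⟨f, V, -, rfl⟩ := h
  exact (isClopen_discrete V).preimage f.continuous

lemma up {H : Set (Set Y)} (hH : ZScott Y Bool H) {𝒞 : Set (Set Y)} (h𝒞 : ∀ W ∈ 𝒞, IsClopen W)
    (h : ⋃₀ 𝒞 ∈ H) : ∃ 𝒟 ⊆ 𝒞, 𝒟.Finite ∧ ∀ V, IsOpen V → ⋃₀ 𝒟 ⊆ V → V ∈ H := by
  obtain ⟨𝒟, h1, h2, h3⟩ := hH.2.2 𝒞 (fun W hW => mem_OZ (h𝒞 W hW)) h
  refine ⟨𝒟, h1, h2, hH.2.1 _ h3 (mem_OZ ?_)⟩
  rw [sUnion_eq_biUnion]
  exact h2.isClopen_biUnion fun W hW => h𝒞 W (h1 hW)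

/-- the complement of an initial piece of a column -/
def A (n k : ℕ) : Set Y := {y | ∀ m < k, y ≠ Y.pt n m}

/-- the complement of a column -/
def C (n : ℕ) : Set Y := {y | ∀ m, y ≠ Y.pt n m}

lemma A_clopen (n k : ℕ) : IsClopen (A n k) :=
  clopen_of (fun _ _ => by simp) (Eventually.of_forall fun _ => by
    filter_upwards [eventually_ge_atTop k] with m hm j hj h
    simp only [Y.pt.injEq] at h
    omega)

lemma C_clopen (n : ℕ) : IsClopen (C n) :=
  clopen_of (fun _ => by simp) (by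
    filter_upwards [eventually_gt_atTop n] with j hj
    refine Eventually.of_forall fun m i h => ?_
    simp only [Y.pt.injEq] at h
    omega)

/-- indicator as a continuous map -/
noncomputable def ind (U : Set Y) (h : IsClopen U) : C(Y, Bool) :=
  ⟨U.boolIndicator, (continuous_boolIndicator_iff_isClopen U).2 h⟩

lemma tend1 (n : ℕ) : Tendsto (fun k => ind (A n k) (A_clopen n k)) atTop
    (@nhds _ (tOne Y Bool) (ind (C n) (C_clopen n))) := by
  rw [TopologicalSpace.tendsto_nhds_generateFrom_iff]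
  rintro _ ⟨H, U, hH, hU, rfl⟩ h
  have h' : ind (C n) (C_clopen n) ⁻¹' U ∈ H := h
  let W : ℕ → Set Y := fun k => ind (C n) (C_clopen n) ⁻¹' U ∩ (C n ∪ (A n k)ᶜ)
  have hW : ⋃₀ range W = ind (C n) (C_clopen n) ⁻¹' U := by
    rw [sUnion_range]
    refine Subset.antisymm (iUnion_subset fun k => inter_subset_left) fun y hy => ?_
    by_cases hc : y ∈ C n
    · exact mem_iUnion.2 ⟨0, hy, Or.inl hc⟩
    · simp only [C, mem_ofPred_eq, not_forall, not_not] at hc
      obtain ⟨m, rfl⟩ := hc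
      exact mem_iUnion.2 ⟨m + 1, hy, Or.inr fun h => h m (Nat.lt_succ_self m) rfl⟩
  obtain ⟨𝒟, h1, h2, h3⟩ := up hH (𝒞 := range W) (by
    rintro _ ⟨k, rfl⟩
    exact ((isClopen_discrete U).preimage (ind _ _).continuous).inter
      ((C_clopen n).union (A_clopen n k).compl)) (hW ▸ h')
  have : ∀ᶠ k in atTop, ∀ D ∈ 𝒟, D ⊆ ind (A n k) (A_clopen n k) ⁻¹' U := by
    rw [eventually_all_finite h2]
    intro D hD
    obtain ⟨j, rfl⟩ := h1 hD
    filter_upwards [eventually_ge_atTop j] with k hk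
    rintro y ⟨hy, hy'⟩
    have : (A n k).boolIndicator y = (C n).boolIndicator y := by
      rcases hy' with h | h
      · rw [(mem_iff_boolIndicator _ _).1 h,
          (mem_iff_boolIndicator _ _).1 (show y ∈ A n k from fun m _ => h m)]
      · rw [(notMem_iff_boolIndicator _ _).1 (show y ∉ C n from fun h' => h fun m _ => h' m),
          (notMem_iff_boolIndicator _ _).1
            (show y ∉ A n k from fun h' => h fun m hm => h' m (by omega))]
    show (A n k).boolIndicator y ∈ U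
    rw [this]; exact hy
  filter_upwards [this] with k hk
  exact h3 _ (hU.preimage (ind _ _).continuous) (sUnion_subset hk)

lemma tend2 : Tendsto (fun p : ℕ × ℕ => ind (A p.1 p.2) (A_clopen _ _)) (comap Prod.fst atTop)
    (@nhds _ (tOne Y Bool) (ContinuousMap.const Y true)) := by
  classical
  rw [TopologicalSpace.tendsto_nhds_generateFrom_iff]
  rintro _ ⟨H, U, hH, hU, rfl⟩ h
  have h' : ContinuousMap.const Y true ⁻¹' U ∈ H := h
  by_cases ht : true ∈ U
  swap
  · have h0 : ContinuousMap.const Y true ⁻¹' U = ∅ := by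
      ext y; simp [ht]
    rw [h0] at h'
    exact univ_mem' fun p => hH.2.1 _ h' (mem_OZ isClopen_empty) _
      (hU.preimage (ind _ _).continuous) (empty_subset _)
  have h0 : ContinuousMap.const Y true ⁻¹' U = univ := by
    ext y; simp [ht]
  rw [h0] at h'
  have key : ∀ᶠ n in atTop, ∀ k, A n k ∈ H := by
    have hk : ∀ n, ∃ k, (¬ ∀ k, A n k ∈ H) → A n k ∉ H := fun n => by
      by_cases h : ∀ k, A n k ∈ H
      · exact ⟨0, fun h' => (h' h).elim⟩
      · push Not at h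
        obtain ⟨k, hk⟩ := h
        exact ⟨k, fun _ => hk⟩
    choose k hk using hk
    let U₀ : Set Y := ⋂ n, A n (k n)
    have hU₀ : IsClopen U₀ := clopen_of (mem_iInter.2 fun n _ _ => by simp)
      (Eventually.of_forall fun n => by
        filter_upwards [eventually_ge_atTop (k n)] with m hm
        refine mem_iInter.2 fun j i hi h => ?_
        simp only [Y.pt.injEq] at h
        obtain ⟨rfl, rfl⟩ := h
        omega)
    obtain ⟨𝒟, h1, h2, h3⟩ := up hH (𝒞 := insert U₀ (range fun n => (C n)ᶜ)) (by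
      rintro _ (rfl | ⟨n, rfl⟩)
      · exact hU₀
      · exact (C_clopen n).compl) (by
      convert h'
      refine eq_univ_of_forall fun y => ?_
      cases y with
      | inf => exact ⟨U₀, Or.inl rfl, mem_iInter.2 fun n _ _ => by simp⟩
      | pt n m => exact ⟨_, Or.inr ⟨n, rfl⟩, fun h => h m rfl⟩)
    have : ∀ᶠ n in atTop, ∀ D ∈ 𝒟, D ⊆ A n (k n) := by
      rw [eventually_all_finite h2]
      intro D hD
      rcases h1 hD with rfl | ⟨j, rfl⟩
      · exact Eventually.of_forall fun n => iInter_subset _ n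
      · filter_upwards [eventually_gt_atTop j] with n hn y hy m _ h
        subst h
        refine hy fun i h => ?_
        simp only [Y.pt.injEq] at h
        omega
    filter_upwards [this] with n hn
    by_contra hc
    exact hk n hc (h3 _ (A_clopen _ _).isOpen (sUnion_subset hn))
  refine mem_of_superset (preimage_mem_comap key) fun p hp => ?_
  refine hH.2.1 _ (hp p.2) (mem_OZ (A_clopen _ _)) _ (hU.preimage (ind _ _).continuous) ?_
  intro y hy
  show (A p.1 p.2).boolIndicator y ∈ U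
  rw [(mem_iff_boolIndicator _ _).1 hy]; exact ht

/-- the family of neighbourhoods of the limit point meeting every column -/
def H₀ : Set (Set Y) := {U | IsOpen U ∧ Y.inf ∈ U ∧ ∀ n, ∃ m, Y.pt n m ∈ U}

lemma H₀_scott : ZScott Y Bool H₀ := by
  refine ⟨fun W hW => hW.1, fun W hW _ V hV h => ⟨hV, h hW.2.1, fun n => (hW.2.2 n).imp fun m hm =>
    h hm⟩, ?_⟩
  rintro 𝒞 h𝒞 ⟨-, ⟨W, hW, hinf⟩, h2⟩
  choose m D hD hm using h2
  obtain ⟨N, hN⟩ := eventually_atTop.1 ((isOpen_iff _).1 (OZ_clopen (h𝒞 hW)).isOpen hinf)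
  have hsub : insert W (D '' Iio N) ⊆ 𝒞 := by
    rintro _ (rfl | ⟨n, -, rfl⟩)
    · exact hW
    · exact hD n
  refine ⟨insert W (D '' Iio N), hsub, ((finite_Iio N).image D).insert W,
    isOpen_sUnion fun t ht => (OZ_clopen (h𝒞 (hsub ht))).isOpen, ⟨W, Or.inl rfl, hinf⟩, fun n => ?_⟩
  rcases lt_or_ge n N with h | h
  · exact ⟨m n, D n, Or.inr ⟨n, h, rfl⟩, hm n⟩
  · obtain ⟨j, hj⟩ := (hN n h).exists
    exact ⟨j, W, Or.inl rfl, hj⟩

theorem result : ∃ (Y Z : Type) (_ : TopologicalSpace Y) (_ : TopologicalSpace Z),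
    T35Space Z ∧ ¬ @RegularSpace C(Y, Z) (tOne Y Z) := by
  refine ⟨Y, Bool, inferInstance, inferInstance, inferInstance, fun hreg => ?_⟩
  let _ : TopologicalSpace C(Y, Bool) := tOne Y Bool
  have hop : IsOpen {f : C(Y, Bool) | f ⁻¹' {true} ∈ H₀} :=
    TopologicalSpace.isOpen_generateFrom_of_mem ⟨H₀, {true}, H₀_scott, isOpen_discrete _, rfl⟩
  have hmem : ContinuousMap.const Y true ∈ {f : C(Y, Bool) | f ⁻¹' {true} ∈ H₀} :=
    ⟨(isOpen_discrete _).preimage (ContinuousMap.const Y true).continuous, rfl, fun _ => ⟨0, rfl⟩⟩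
  obtain ⟨N, ⟨hN1, hN2⟩, hN3⟩ := (closed_nhds_basis _).mem_iff.1 (hop.mem_nhds hmem)
  obtain ⟨S, hS, hS'⟩ := mem_comap.1 (tend2 hN1)
  obtain ⟨n, hn⟩ := Filter.nonempty_of_mem hS
  have := hN3 (hN2.mem_of_tendsto (tend1 n) (Eventually.of_forall fun k => @hS' (n, k) hn))
  obtain ⟨m, hm⟩ := this.2.2 n
  exact (mem_iff_boolIndicator _ _).2 hm m rfl

end Pool.Agent.Results.MP_8267fa_gt.NotRegular
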